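import Pool.Agent.H41.CO.Defs

set_option autoImplicit false

/-!
# Cycle odd-covers: the bound by the maximum degree (helper922 for helper41)
-/

namespace Pool.Agent.H922.CO

open Pool.Agent.H41.CO Equiv

theorem out_add_inn {V : Type} [Fintype V] [DecidableEq V] (G : SimpleGraph V)
    (A : Finset (V × V)) (hA : Ori G A) (v : V) :
    out A v + inn A v ≤ {w | G.Adj v w}.ncard := by
  classical
  have h1 : out A v = ((A.filter fun a => a.1 = v).image Prod.snd).card := by
    unfold out
    rw [Finset.card_image_of_injOn]
    intro a ha b hb hab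
    simp only [Finset.coe_filter, Set.mem_setOf_eq] at ha hb
    exact Prod.ext (ha.2.trans hb.2.symm) hab
  have h2 : inn A v = ((A.filter fun a => a.2 = v).image Prod.fst).card := by
    unfold inn
    rw [Finset.card_image_of_injOn]
    intro a ha b hb hab
    simp only [Finset.coe_filter, Set.mem_setOf_eq] at ha hb
    exact Prod.ext hab (ha.2.trans hb.2.symm)
  have hm1 : ∀ w, w ∈ ((A.filter fun a => a.1 = v).image Prod.snd) → (v, w) ∈ A := by
    intro w hw
    rw [Finset.mem_image] at hw
    obtain ⟨a, ha, rfl⟩ := hw
    rw [Finset.mem_filter] at ha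
    have : (v, a.2) = a := Prod.ext ha.2.symm rfl
    rw [this]; exact ha.1
  have hm2 : ∀ w, w ∈ ((A.filter fun a => a.2 = v).image Prod.fst) → (w, v) ∈ A := by
    intro w hw
    rw [Finset.mem_image] at hw
    obtain ⟨a, ha, rfl⟩ := hw
    rw [Finset.mem_filter] at ha
    have : (a.1, v) = a := Prod.ext rfl ha.2.symm
    rw [this]; exact ha.1
  have hdis : Disjoint ((A.filter fun a => a.1 = v).image Prod.snd)
      ((A.filter fun a => a.2 = v).image Prod.fst) := by
    rw [Finset.disjoint_left]
    intro w hw hw'
    exact hA.2 v w (hm1 w hw) (hm2 w hw')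
  rw [h1, h2, ← Finset.card_union_of_disjoint hdis, ← Set.ncard_coe_finset]
  apply Set.ncard_le_ncard _ (Set.toFinite _)
  intro w hw
  rw [Finset.mem_coe, Finset.mem_union] at hw
  rw [Set.mem_setOf_eq, hA.1 v w]
  rcases hw with hw | hw
  · exact Or.inl (hm1 w hw)
  · exact Or.inr (hm2 w hw)

theorem half (he : S_EULER) (hp : S_PERMS) (ht : S_TWO) : S_HALF := by
  classical
  intro V _ _ G k hG hd
  rcases Nat.eq_zero_or_pos k with rfl | hk
  · refine ⟨fun i => i.elim0, fun i => i.elim0, fun u v huv => ?_⟩
    have h0 : ¬ G.Adj u v := by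
      intro h
      have h1 := hd u
      have h2 : {w | G.Adj u w}.ncard = 0 := by omega
      rw [Set.ncard_eq_zero (Set.toFinite _)] at h2
      have : v ∈ ({w | G.Adj u w} : Set V) := h
      rw [h2] at this
      exact this
    unfold adj
    rw [if_neg h0]
    exact Finset.sum_eq_zero (fun i _ => i.elim0)
  · obtain ⟨A, hA, hbal⟩ := he V G hG
    have hout : ∀ v, out A v ≤ k := by
      intro v
      have h1 := out_add_inn G A hA v
      have h2 := hd v
      have h3 := hbal v
      omega
    have hloop : ∀ v, (v, v) ∉ A := fun v hv => hA.2 v v hv hv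
    obtain ⟨τ, col, h1, h2, -⟩ := hp V k A (fun v => k - out A v) hk hloop
      (fun v => by have := hout v; show out A v + (k - out A v) ≤ k; omega)
      (fun v => by
        have := hout v; have := hbal v; show inn A v + (k - out A v) ≤ k; omega)
    have h2' : ∀ v i, τ i v ≠ v → ((v, τ i v) ∈ A ∧ col (v, τ i v) = i) := by
      intro v i hi
      by_contra hc
      have h := h2 v
      have hv := hout v
      have h0 : {i | τ i v ≠ v ∧ ¬ ((v, τ i v) ∈ A ∧ col (v, τ i v) = i)}.ncard = 0 := by
        have h' : {i | τ i v ≠ v ∧ ¬ ((v, τ i v) ∈ A ∧ col (v, τ i v) = i)}.ncard +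
          (out A v + (k - out A v)) ≤ k := h
        omega
      rw [Set.ncard_eq_zero (Set.toFinite _)] at h0
      have : i ∈ {i | τ i v ≠ v ∧ ¬ ((v, τ i v) ∈ A ∧ col (v, τ i v) = i)} := ⟨hi, hc⟩
      rw [h0] at this
      exact this
    have key : ∀ u v, u ≠ v → ∀ i, (τ i u = v ↔ ((u, v) ∈ A ∧ col (u, v) = i)) := by
      intro u v huv i
      constructor
      · intro h
        have h3 := h2' u i (by rw [h]; exact huv.symm)
        rw [h] at h3
        exact h3
      · rintro ⟨ha, hc⟩
        have := h1 (u, v) ha
        rw [hc] at this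
        exact this
    have hs : ∀ u v, u ≠ v →
        ∑ i, (if τ i u = v then (1 : ZMod 2) else 0) = if (u, v) ∈ A then 1 else 0 := by
      intro u v huv
      by_cases ha : (u, v) ∈ A
      · rw [if_pos ha]
        have : ∀ i ∈ (Finset.univ : Finset (Fin k)), (if τ i u = v then (1 : ZMod 2) else 0) =
            if col (u, v) = i then 1 else 0 := by
          intro i _
          have h := key u v huv i
          by_cases hc : col (u, v) = i
          · rw [if_pos hc, if_pos (h.2 ⟨ha, hc⟩)]
          · rw [if_neg hc, if_neg (fun h' => hc (h.1 h').2)]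
        rw [Finset.sum_congr rfl this, Finset.sum_ite_eq]
        simp
      · rw [if_neg ha]
        apply Finset.sum_eq_zero
        intro i _
        rw [if_neg (fun h' => ha ((key u v huv i).1 h').1)]
    have hvec : ∀ u v, u ≠ v → ∑ i, vec (τ i) u v = adj G u v := by
      intro u v huv
      unfold vec adj
      rw [Finset.sum_add_distrib, hs u v huv, hs v u huv.symm]
      by_cases ha : (u, v) ∈ A
      · have hb := hA.2 u v ha
        rw [if_pos ha, if_neg hb, if_pos ((hA.1 u v).2 (Or.inl ha)), add_zero]
      · by_cases hb : (v, u) ∈ A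
        · rw [if_neg ha, if_pos hb, if_pos ((hA.1 u v).2 (Or.inr hb)), zero_add]
        · rw [if_neg ha, if_neg hb, if_neg (fun h => by
            rcases (hA.1 u v).1 h with h | h
            · exact ha h
            · exact hb h), add_zero]
    choose σ π hσ hπ hsum using fun i => ht V (τ i)
    refine ⟨fun j => if (finProdFinEquiv.symm j : Fin 2 × Fin k).1 = 0 then
      σ (finProdFinEquiv.symm j : Fin 2 × Fin k).2 else
      π (finProdFinEquiv.symm j : Fin 2 × Fin k).2, ?_, ?_⟩
    · intro j
      show OneCyc (if (finProdFinEquiv.symm j : Fin 2 × Fin k).1 = 0 then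
        σ (finProdFinEquiv.symm j : Fin 2 × Fin k).2 else
        π (finProdFinEquiv.symm j : Fin 2 × Fin k).2)
      split_ifs
      · exact hσ _
      · exact hπ _
    · intro u v huv
      rw [← hvec u v huv]
      rw [← (finProdFinEquiv : Fin 2 × Fin k ≃ Fin (2 * k)).sum_comp]
      simp only [Equiv.symm_apply_apply]
      rw [Fintype.sum_prod_type, Fin.sum_univ_two]
      rw [← Finset.sum_add_distrib]
      apply Finset.sum_congr rfl
      intro i _
      rw [hsum i u v huv]
      simp

end Pool.Agent.H922.CO
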